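import Mathlib
import Pool.Agent.Lib.MP_fb02f1_lc.H30.NPDefs

/-!
# Approximate counting of Polya orbits: definitions

`Z k gs` is the sum of `k ^ c(g)` over the elements `g` of the permutation group generated by the
list `gs`, where `c(g)` is the number of cycles of `g`, fixed points included.
-/

namespace Pool.Agent.Polya

open Pool.Agent.Shoped30 Computability

/-- The number of cycles of a permutation, fixed points included: the number of classes of the
relation of being on the same cycle. -/
noncomputable def cyc {m : ℕ} (g : Equiv.Perm (Fin m)) : ℕ :=
  Nat.card (Quotient (Equiv.Perm.SameCycle.setoid g))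

open scoped Classical in
/-- The quantity `Z_k(G)`, the sum of `k ^ c(g)` over the elements `g` of the group `G` generated
by the permutations in the list `gs`. -/
noncomputable def Z (k : ℕ) {m : ℕ} (gs : List (Equiv.Perm (Fin m))) : ℕ :=
  ∑ g : Equiv.Perm (Fin m), if g ∈ Subgroup.closure {h | h ∈ gs} then k ^ cyc g else 0

/-- The word of a natural number in unary. -/
def unaryW (n : ℕ) : List Bool := List.replicate n true ++ [false]

/-- The word of an input: the degree, followed by the tables of the permutations. -/
def inputWord {m : ℕ} (gs : List (Equiv.Perm (Fin m))) : List Bool :=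
  unaryW m ++ gs.flatMap fun g => (List.finRange m).flatMap fun i => unaryW (g i).val

/-- The probability, over the uniformly random word `r` of length `N`, of the property `P`. -/
noncomputable def prob (N : ℕ) (P : List Bool → Prop) : ℝ :=
  (Nat.card {r : Fin N → Bool // P (List.ofFn r)} : ℝ) / 2 ^ N

/-- The problem `#PolyaOrbits_k`, restricted to lists of at most `m` permutations of `m` points,
has a fully polynomial randomised approximation scheme: there are a polynomial `p` and a function
`A` computable in polynomial time such that for all inputs `x` and all accuracies `ε = 1 / e` with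
`e ≥ 2`, given `x`, `e` (in unary) and a uniformly random word `r` of length `p(|x| + e)`, the
output of `A` is, with probability at least `3 / 4`, (the pair of binary expansions of) a fraction
`a / b` with `exp (-ε) Z ≤ a / b ≤ exp ε Z`. -/
def HasFPRAS (k : ℕ) : Prop :=
  ∃ (A : List Bool → List Bool) (p : Polynomial ℕ),
    PolyTime (id : List Bool → List Bool) (id : List Bool → List Bool) A ∧
    ∀ (m : ℕ) (gs : List (Equiv.Perm (Fin m))), gs.length ≤ m → ∀ e : ℕ, 2 ≤ e →
      3 / 4 ≤ prob (p.eval ((inputWord gs).length + e)) fun r => ∃ a b : ℕ,
        A (pairWord (pairWord (inputWord gs) (List.replicate e true)) r) =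
          pairWord a.bits b.bits ∧ b ≠ 0 ∧
        Real.exp (-(1 / e)) * Z k gs ≤ (a : ℝ) / b ∧ (a : ℝ) / b ≤ Real.exp (1 / e) * Z k gs

/-- The problem `#PolyaOrbits_k`, restricted to lists of at most `m` permutations of `m` points,
has a randomised polynomial-time approximation within the factor `ρ m`: there are a polynomial `p`
and a function `A` computable in polynomial time such that for all inputs `x`, given `x` and a
uniformly random word `r` of length `p(|x|)`, the output of `A` is, with probability at least
`3 / 4`, (the pair of binary expansions of) a fraction `a / b` with `Z / ρ m ≤ a / b ≤ ρ m Z`. -/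
def HasApprox (k : ℕ) (ρ : ℕ → ℝ) : Prop :=
  ∃ (A : List Bool → List Bool) (p : Polynomial ℕ),
    PolyTime (id : List Bool → List Bool) (id : List Bool → List Bool) A ∧
    ∀ (m : ℕ) (gs : List (Equiv.Perm (Fin m))), gs.length ≤ m →
      3 / 4 ≤ prob (p.eval (inputWord gs).length) fun r => ∃ a b : ℕ,
        A (pairWord (inputWord gs) r) = pairWord a.bits b.bits ∧ b ≠ 0 ∧
        Z k gs / ρ m ≤ (a : ℝ) / b ∧ (a : ℝ) / b ≤ ρ m * Z k gs

/-- The language `L` is in RP: there are a predicate `R` decidable in polynomial time and a
polynomial `p` such that for `w ∉ L` the pair `(w, r)` is rejected for all words `r` of length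
`p(|w|)`, and for `w ∈ L` it is accepted with probability at least `1 / 2`. -/
def InRP (L : Set (List Bool)) : Prop :=
  ∃ (R : List Bool → Bool) (p : Polynomial ℕ),
    PolyTime (id : List Bool → List Bool) encodeBool R ∧
    (∀ w, w ∉ L → ∀ r : List Bool, r.length = p.eval w.length → R (pairWord w r) = false) ∧
    ∀ w, w ∈ L → 1 / 2 ≤ prob (p.eval w.length) fun r => R (pairWord w r) = true

end Pool.Agent.Polya
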