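import Pool.Agent.Lib.MP_6ec4b3_lc.Prog

/-!
# The statements of the modules
-/

namespace Pool.Agent.Polya

open Pool.Agent.Shoped30 Pool.Agent.TMLib Computability

/-! ### Group theory -/

/-- Module CYC: the number of cycles of a block permutation, and the weights of the cosets. -/
def CYC : Prop :=
  (∀ (M : ℕ) (f : Fin M → Equiv.Perm (Fin 4)), cyc (blockPerm f) = ∑ j, cyc (f j)) ∧
  ∀ (k : ℕ) (p q : Bool), k ^ cyc (rep p q) + k ^ cyc (rep p q * cen) =
    F k (if p = true then 1 else 0) (if q = true then 1 else 0)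

/-- Module GRP (from CYC): the group generated by `gens L rows`. -/
def GRP : Prop := ∀ (k L : ℕ) (rows : List Row),
  (∀ x : Fin L → ZMod 2, (∀ r ∈ rows, lin L r.1 x = 0 ∧ lin L r.2 x = 0) → x = 0) →
    Z k (gens L rows) =
      ∑ x : Fin L → ZMod 2, (rows.map fun r => F k (lin L r.1 x) (lin L r.2 x)).prod

/-- Module WORD: the word of the instance, and the length of the word of an input. -/
def WORD : Prop :=
  (∀ (L : ℕ) (rows : List Row), inputWord (gens L rows) = word L rows) ∧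
  (∀ (L : ℕ) (rows : List Row), (gens L rows).length = L + rows.length) ∧
  ∀ (m : ℕ) (gs : List (Equiv.Perm (Fin m))),
    (inputWord gs).length ≤ m + 1 + gs.length * m * m

/-- Module ROWS (from GRP): the value `Z` of an instance. -/
def ROWS : Prop := ∀ (k n l t : ℕ) (E : ℕ → ℕ → Bool) (r : List Bool),
  (rowsOf n l t E r).length = nblocks n l t ∧
  Z k (gens (n * l) (rowsOf n l t E r)) =
    ZZ k n l t (fun u v => E u.val v.val) (omOf n l t r)

/-! ### Analysis -/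

/-- Module LOW: the lower bound, valid for all choices of the forms. -/
def LOW : Prop := ∀ (k n l t : ℕ), 1 ≤ k → ∀ (E : Fin n → Fin n → Bool) (ω : Om n l t)
  (I : Finset (Fin n)), (∀ u ∈ I, ∀ v ∈ I, E u v = false) →
    (F k 0 0 : ℝ) ^ nblocks n l t * lam k n l t ^ I.card ≤ ZZ k n l t E ω

/-- Module EXP: the exact expectation; `I` is the support of `x`. The number of pairs of `I`
related by `E` is the exponent of `nu`. -/
def EXP : Prop := ∀ (k n l t : ℕ), 1 ≤ k → ∀ (E : Fin n → Fin n → Bool),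
  ∑ ω : Om n l t, (ZZ k n l t E ω : ℝ) =
    Fintype.card (Om n l t) * (F k 0 0 : ℝ) ^ nblocks n l t *
      ∑ I : Finset (Fin n), ((1 + fa k) ^ l - 1) ^ I.card *
        (mu k ^ (t * (n * I.card - ((I ×ˢ I).filter fun q => E q.1 q.2 = true).card)) *
          nu k ^ (t * ((I ×ˢ I).filter fun q => E q.1 q.2 = true).card))

/-- Module UP (from EXP): the upper bound for the expectation. -/
def UP : Prop := ∀ (k n l t α : ℕ), 1 ≤ k → ∀ (E : Fin n → Fin n → Bool),
  (∀ I : Finset (Fin n), (∀ u ∈ I, ∀ v ∈ I, E u v = false) → I.card ≤ α) →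
    1 ≤ lam k n l t → lam k n l t * nu k ^ t ≤ mu k ^ t →
    ∑ ω : Om n l t, (ZZ k n l t E ω : ℝ) ≤
      Fintype.card (Om n l t) * ((F k 0 0 : ℝ) ^ nblocks n l t * 2 ^ n * lam k n l t ^ α)

/-- Module PAR: the choice of the dimension. -/
def PAR : Prop := ∀ (k n w : ℕ), 2 ≤ k → 1 ≤ w → ∃ l ≤ lf k n w,
  2 ^ w ≤ lam k n l (tf k w) ∧ lam k n l (tf k w) ≤ 2 ^ (w + 1) ∧
    lam k n l (tf k w) * nu k ^ tf k w ≤ mu k ^ tf k w

/-- Module SAT: satisfying assignments and sets without conflicts. -/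
def SAT : Prop := ∀ ψ : List Cl4,
  (Sat4 ψ → ∃ I : Finset (Fin (4 * ψ.length)),
    (∀ u ∈ I, ∀ v ∈ I, conf ψ u.val v.val = false) ∧ I.card = ψ.length) ∧
  (¬ Sat4 ψ → ∀ I : Finset (Fin (4 * ψ.length)),
    (∀ u ∈ I, ∀ v ∈ I, conf ψ u.val v.val = false) → I.card < ψ.length)

/-! ### Probability -/

/-- Module PROB: elementary facts on `prob`. -/
def PROB : Prop :=
  (∀ (N : ℕ) (P Q : List Bool → Prop), (∀ r, r.length = N → P r → Q r) →
    prob N P ≤ prob N Q) ∧
  (∀ (a b N : ℕ) (P : List Bool → Prop), a + b ≤ N →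
    prob N (fun r => P ((r.drop a).take b)) = prob b P) ∧
  (∀ (b N : ℕ) (P : List Bool → Prop) (Q : List Bool → List Bool → Prop) (x y : ℝ), b ≤ N →
    1 - x ≤ prob b P → (∀ s, s.length = b → 1 - y ≤ prob (N - b) (Q s)) →
    1 - (x + y) ≤ prob N (fun r => P (r.take b) ∧ Q (r.take b) (r.drop b))) ∧
  (∀ (N n : ℕ) (P : ℕ → List Bool → Prop) (x : ℝ), (∀ i < n, 1 - x ≤ prob N (P i)) →
    1 - n * x ≤ prob N (fun r => ∀ i < n, P i r))

/-- Module MARKOV: the bits of a random word are independent random forms, and the Markov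
inequality. -/
def MARKOV : Prop := ∀ (n l t : ℕ) (f : Om n l t → ℝ) (S : ℝ), (∀ ω, 0 ≤ f ω) →
  ∑ ω, f ω ≤ Fintype.card (Om n l t) * S →
    7 / 8 ≤ prob (nbits n l t) (fun r => f (omOf n l t r) ≤ 8 * S)

/-- Module AMP: amplification by majority vote. -/
def AMP : Prop := ∀ (B T : ℕ) (D : List Bool → Bool) (ans : Bool),
  5 / 8 ≤ prob B (fun r => D r = ans) →
    1 - (15 / 16) ^ T ≤ prob (2 * T * B) (fun r => maj (2 * T) B D r = ans)

/-! ### The gap and the decision procedure -/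

/-- Module GAP (from ROWS, LOW, UP, PAR, SAT, MARKOV): the gap. -/
def GAP : Prop := ∀ k c h : ℕ, 2 ≤ k → 1 ≤ c → ∃ l ≤ lmx k c h, ∃ τ ≤ tmx k c h,
  ∀ ψ : List Cl4, ψ.length = c →
    (Sat4 ψ → ∀ r, (2 : ℝ) ^ (τ + h) ≤ cnfZ k h ψ l r) ∧
    (¬ Sat4 ψ → 7 / 8 ≤ prob (nbits (4 * c) l (tc k c h))
      fun r => (2 : ℝ) ^ (h + 1) * cnfZ k h ψ l r ≤ 2 ^ τ)

/-- The property of an approximation algorithm. -/
def IsApx (k : ℕ) (ρ : ℕ → ℝ) (A : List Bool → List Bool) (p : Polynomial ℕ) : Prop :=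
  ∀ (m : ℕ) (gs : List (Equiv.Perm (Fin m))), gs.length ≤ m →
    3 / 4 ≤ prob (p.eval (inputWord gs).length) fun r => ∃ a b : ℕ,
      A (pairWord (inputWord gs) r) = pairWord a.bits b.bits ∧ b ≠ 0 ∧
      Z k gs / ρ m ≤ (a : ℝ) / b ∧ (a : ℝ) / b ≤ ρ m * Z k gs

/-- Module DC (from GAP, PROB, WORD, ROWS, PTU): the decision procedure is correct with probability
at least `5 / 8`. -/
def DC : Prop := ∀ (k : ℕ) (ρ : ℕ → ℝ) (A : List Bool → List Bool) (p : Polynomial ℕ), 2 ≤ k →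
  (∀ m, 0 < ρ m) → IsApx k ρ A p → ∀ c h : ℕ, 1 ≤ c →
    (∀ m, m ≤ 4 * mmx k c h → ρ m ≤ 2 ^ h) →
    ∃ l ≤ lmx k c h, ∃ τ ≤ tmx k c h, ∀ ψ : List Cl4, ψ.length = c →
      5 / 8 ≤ prob (bmx k p c h) fun r => (dec A p k h ψ l τ r = true ↔ Sat4 ψ)

/-- Module RATE: the size of the instances is polynomial. -/
def RATE : Prop := ∀ (k : ℕ) (δ : ℝ), 0 < δ → δ < 1 → ∃ c0 K : ℕ, ∀ c : ℕ, 1 ≤ c →
  ∀ m : ℕ, m ≤ 4 * mmx k c ((4 * c + c0) ^ K) →
    (m : ℝ) ^ (1 - δ) ≤ (((4 * c + c0) ^ K : ℕ) : ℝ)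

/-! ### The search -/

/-- Module SR (from PROB, AMP): the search finds a satisfying assignment with probability at
least `1 / 2`, and what it accepts is satisfiable. -/
def SR : Prop :=
  (∀ (ψ : List Cl4) (as : List Lit), satB ψ as = true → Sat4 ψ) ∧
  ∀ (D : List Cl4 → List Bool → Bool) (ψ : List Cl4) (B R : ℕ),
    (∀ φ : List Cl4, φ.length = ψ.length + nvar ψ →
      5 / 8 ≤ prob B fun r => (D φ r = true ↔ Sat4 φ)) →
    Sat4 ψ → nvar ψ * (32 * nvar ψ) * B ≤ R →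
      1 / 2 ≤ prob R fun r => satB ψ (search D (nvar ψ) (32 * nvar ψ) B ψ r) = true

/-! ### Polynomial time -/

/-- Module BRIDGE: from Turing machines to the class `PTime`, and back for predicates. -/
def BRIDGE : Prop :=
  (∀ A : List Bool → List Bool,
    PolyTime (id : List Bool → List Bool) (id : List Bool → List Bool) A → PTime A) ∧
  (∀ R : List Bool → Bool, PolyTime (id : List Bool → List Bool) encodeBool R → PTime R) ∧
  (∀ R : List Bool → Bool, PTime R → PolyTime (id : List Bool → List Bool) encodeBool R)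

/-- Module PTU: the inverse of the pairing. -/
def PTU : Prop := PTime unpairW ∧ ∀ w c : List Bool, unpairW (pairWord w c) = (w, c)

/-- Module PTW: the word of an instance is computable in polynomial time. -/
def PTW : Prop := ∀ (k : ℕ) (hf : ℕ → ℕ), PTime hf →
  PTime (fun x : List Cl4 × ℕ × List Bool => cnfWord k (hf x.1.length) x.1 x.2.1 x.2.2)

/-- Module PTD (from PTW, PTU): the decision procedure is computable in polynomial time. -/
def PTD : Prop := ∀ (k : ℕ) (A : List Bool → List Bool) (p : Polynomial ℕ) (hf : ℕ → ℕ),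
  PTime A → PTime hf →
    PTime (fun x : List Cl4 × ℕ × ℕ × List Bool =>
      dec A p k (hf x.1.length) x.1 x.2.1 x.2.2.1 x.2.2.2) ∧
    PTime (fun c : ℕ => lmx k c (hf c)) ∧ PTime (fun c : ℕ => tmx k c (hf c)) ∧
    PTime (fun c : ℕ => bmx k p c (hf c))

/-- Module PTR: the complete procedure is computable in polynomial time. -/
def PTR : Prop := ∀ (D : List Cl4 → ℕ → ℕ → List Bool → Bool) (lm tm bm : ℕ → ℕ),
  PTime (fun x : List Cl4 × ℕ × ℕ × List Bool => D x.1 x.2.1 x.2.2.1 x.2.2.2) →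
  PTime lm → PTime tm → PTime bm →
    PTime (fun x : List Cl4 × List Bool => rpB D lm tm bm x.1 x.2)

/-- Module RPM (from SR, PTR, PTU, BRIDGE, Cook-Levin): a decision procedure with advice puts NP
into RP. -/
def RPM : Prop := ∀ (D : List Cl4 → ℕ → ℕ → List Bool → Bool) (lm tm bm : ℕ → ℕ),
  PTime (fun x : List Cl4 × ℕ × ℕ × List Bool => D x.1 x.2.1 x.2.2.1 x.2.2.2) →
  PTime lm → PTime tm → PTime bm →
  (∀ c, 1 ≤ c → ∃ l ≤ lm c, ∃ τ ≤ tm c, ∀ ψ : List Cl4, ψ.length = c →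
    5 / 8 ≤ prob (bm c) fun r => (D ψ l τ r = true ↔ Sat4 ψ)) →
  ∀ L : Set (List Bool), InNP L → InRP L

/-- Module RPNP (from BRIDGE, PTU): RP is contained in NP. -/
def RPNP : Prop := ∀ L : Set (List Bool), InRP L → InNP L

/-- Module FPA (from BRIDGE, PTU): from the approximation scheme to an approximation within the
factor two, in `PTime`. -/
def FPA : Prop := ∀ k : ℕ, HasFPRAS k → ∃ (A : List Bool → List Bool) (p : Polynomial ℕ),
  PTime A ∧ IsApx k (fun _ => 2) A p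

/-- The main theorem. -/
def MAIN : Prop := ∀ k : ℕ, 2 ≤ k →
  (HasFPRAS k → ∀ L : Set (List Bool), InNP L ↔ InRP L) ∧
  ∀ δ : ℝ, 0 < δ → δ < 1 → HasApprox k (fun m => (2 : ℝ) ^ ((m : ℝ) ^ (1 - δ))) →
    ∀ L : Set (List Bool), InNP L ↔ InRP L

end Pool.Agent.Polya
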