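import Pool.Agent.Lib.MP_6ec4b3_lc.Defs
import Pool.Agent.Lib.MP_fb02f1_lc.H30.Hard

/-!
# The reduction: all the objects used by the modules
-/

namespace Pool.Agent.Polya

open Pool.Agent.Shoped30

/-! ### Blocks and rows -/

/-- A row: the coefficients of two linear forms over the field with two elements (entries beyond
the end of the list are zero). -/
abbrev Row := List Bool × List Bool

/-- The weights of a block: the sums of `k ^ c(h)` over the four cosets of the centre of the
dihedral group of order eight, acting on four points. -/
def F (k : ℕ) (p q : ZMod 2) : ℕ :=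
  if p = 0 then (if q = 0 then k ^ 4 + k ^ 2 else 2 * k ^ 2) else
    (if q = 0 then 2 * k ^ 3 else 2 * k)

/-- The image of the point `a` of a block under the representative of the coset `(p, q)`: the
product of the diagonal reflection `1 ↔ 3` (if `p`) and the edge reflection `0 ↔ 1, 2 ↔ 3`
(if `q`); the edge reflection is applied first. -/
def repN (p q : Bool) (a : ℕ) : ℕ :=
  [[[0, 1, 2, 3], [1, 0, 3, 2]], [[0, 3, 2, 1], [3, 0, 1, 2]]].getD p.toNat [] |>.getD q.toNat []
    |>.getD a 0

/-- The central element of a block. -/
def cenN (a : ℕ) : ℕ := [2, 3, 0, 1].getD a 0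

/-- The representative of the coset `(p, q)` as a permutation. -/
def rep (p q : Bool) : Equiv.Perm (Fin 4) :=
  (if p then Equiv.swap 1 3 else 1) * (if q then Equiv.swap 0 1 * Equiv.swap 2 3 else 1)

/-- The central element of a block as a permutation. -/
def cen : Equiv.Perm (Fin 4) := Equiv.swap 0 2 * Equiv.swap 1 3

/-- The permutation of `Fin (M * 4)` which acts on block number `j` (the points `4 j + a`) by
`f j`. -/
def blockPerm {M : ℕ} (f : Fin M → Equiv.Perm (Fin 4)) : Equiv.Perm (Fin (M * 4)) :=
  finProdFinEquiv.permCongr (Equiv.prodCongrRight f)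

/-- The generators of the group of a list of rows; `L` is the number of coordinates. -/
def gens (L : ℕ) (rows : List Row) : List (Equiv.Perm (Fin (rows.length * 4))) :=
  ((List.finRange L).map fun i => blockPerm fun j =>
    rep ((rows.get j).1.getD i.val false) ((rows.get j).2.getD i.val false)) ++
  (List.finRange rows.length).map fun j => blockPerm fun j' => if j' = j then cen else 1

/-- The word of the input given by a list of rows, as a program. -/
def word (L : ℕ) (rows : List Row) : List Bool :=
  unaryW (rows.length * 4) ++
    (((List.range L).flatMap fun i =>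
      ((List.range rows.length).zip rows).flatMap fun x =>
        [0, 1, 2, 3].flatMap fun a =>
          unaryW (repN (x.2.1.getD i false) (x.2.2.getD i false) a + 4 * x.1)) ++
    (List.range rows.length).flatMap fun j => (List.range rows.length).flatMap fun j' =>
      [0, 1, 2, 3].flatMap fun a => unaryW ((if j' = j then cenN a else a) + 4 * j'))

/-- The value of the linear form with coefficients `p`. -/
def lin (L : ℕ) (p : List Bool) (x : Fin L → ZMod 2) : ZMod 2 :=
  ∑ i : Fin L, if p.getD i.val false = true then x i else 0

/-! ### The instance of a relation `E` on `n` vertices -/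

/-- Piece number `j` of length `l` of the word `r`. -/
def chunk (l j : ℕ) (r : List Bool) : List Bool := (r.drop (j * l)).take l

/-- The form with coefficients `φ` on the coordinates of the vertex `u`. -/
def place (l u : ℕ) (φ : List Bool) : List Bool := List.replicate (u * l) false ++ φ

/-- The two rows of the pair `u, v` and the two forms `φ, ψ`. -/
def pairRows (l u v : ℕ) (e : Bool) (φ ψ : List Bool) : List Row :=
  if e = true then [(place l u φ, place l v ψ), ([], [])]
  else [(place l u φ, []), ([], place l v ψ)]

/-- The number of the triple `u, v, i`. -/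
def qn (n t u v i : ℕ) : ℕ := (u * n + v) * t + i

/-- The rows of the instance. -/
def rowsOf (n l t : ℕ) (E : ℕ → ℕ → Bool) (r : List Bool) : List Row :=
  ((List.range (n * l)).map fun j => (List.replicate j false ++ [true], [])) ++
  (List.range n).flatMap fun u => (List.range n).flatMap fun v => (List.range t).flatMap fun i =>
    pairRows l u v (E u v) (chunk l (2 * qn n t u v i) r) (chunk l (2 * qn n t u v i + 1) r)

/-- The index set of the blocks of pairs. -/
abbrev Ix (n t : ℕ) := Fin n × Fin n × Fin t

/-- The choices of two linear forms for all indices. -/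
abbrev Om (n l t : ℕ) := Ix n t → (Fin l → ZMod 2) × (Fin l → ZMod 2)

/-- Linear form number `j` of the word `r`. -/
def fn (l j : ℕ) (r : List Bool) : Fin l → ZMod 2 :=
  fun a => if r.getD (j * l + a.val) false = true then 1 else 0

/-- The forms of the word `r`. -/
def omOf (n l t : ℕ) (r : List Bool) : Om n l t :=
  fun q => (fn l (2 * qn n t q.1 q.2.1 q.2.2) r, fn l (2 * qn n t q.1 q.2.1 q.2.2 + 1) r)

/-- The product of the coefficients of a form with a vector. -/
def dot {l : ℕ} (φ y : Fin l → ZMod 2) : ZMod 2 := ∑ a, φ a * y a

/-- The weight of the two blocks of a pair. -/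
def pw (k : ℕ) (e : Bool) (p q : ZMod 2) : ℕ :=
  if e = true then F k p q * F k 0 0 else F k p 0 * F k 0 q

/-- The value `Z` of the instance. -/
def ZZ (k n l t : ℕ) (E : Fin n → Fin n → Bool) (ω : Om n l t) : ℕ :=
  ∑ x : Fin n → Fin l → ZMod 2, (∏ v, ∏ a, F k (x v a) 0) *
    ∏ q : Ix n t, pw k (E q.1 q.2.1) (dot (ω q).1 (x q.1)) (dot (ω q).2 (x q.2.1))

/-- The number of blocks. -/
def nblocks (n l t : ℕ) : ℕ := n * l + 2 * (n * n * t)

/-- The number of random bits. -/
def nbits (n l t : ℕ) : ℕ := 2 * (n * n * t) * l

/-! ### Constants -/

/-- The weight of the coset `(1, 0)` divided by the weight of the centre. -/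
noncomputable def fa (k : ℕ) : ℝ := 2 * k / (k ^ 2 + 1)

/-- The weight of the coset `(0, 1)` divided by the weight of the centre. -/
noncomputable def fb (k : ℕ) : ℝ := 2 / (k ^ 2 + 1)

/-- The weight of the coset `(1, 1)` divided by the weight of the centre. -/
noncomputable def fc (k : ℕ) : ℝ := 2 / (k * (k ^ 2 + 1))

noncomputable def mu (k : ℕ) : ℝ := (1 + fa k) * (1 + fb k) / 4

noncomputable def nu (k : ℕ) : ℝ := (1 + fa k + fb k + fc k) / 4

/-- The activity. -/
noncomputable def lam (k n l t : ℕ) : ℝ := (1 + fa k) ^ l * mu k ^ (t * n)

/-- The number of repetitions for every pair. -/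
def tf (k w : ℕ) : ℕ := k * (k + 1) * (k ^ 2 + 3) * (w + 1)

/-- The bound for the dimension. -/
def lf (k n w : ℕ) : ℕ := k * (w + 2 * (tf k w * n))

/-- The exponent of the gap of the activity for `n = 4 c` vertices, approximation ratio `2 ^ h`. -/
def wf (c h : ℕ) : ℕ := 4 * c + 2 * h + 5

/-- The number of repetitions for formulas with `c` clauses. -/
def tc (k c h : ℕ) : ℕ := tf k (wf c h)

/-- The bound for the dimension for formulas with `c` clauses. -/
def lmx (k c h : ℕ) : ℕ := lf k (4 * c) (wf c h)

/-- The maximal number of blocks for formulas with `c` clauses. -/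
def mmx (k c h : ℕ) : ℕ := nblocks (4 * c) (lmx k c h) (tc k c h)

/-- The bound for the threshold. -/
def tmx (k c h : ℕ) : ℕ := 5 * k * mmx k c h + (wf c h + 1) * c

/-- A bound for the length of the word of an instance. -/
def xmx (k c h : ℕ) : ℕ := 4 * mmx k c h + 1 + 2 * mmx k c h * (4 * mmx k c h) * (4 * mmx k c h)

/-- The number of random bits of one call. -/
def bmx (k : ℕ) (p : Polynomial ℕ) (c h : ℕ) : ℕ :=
  nbits (4 * c) (lmx k c h) (tc k c h) + p.eval (xmx k c h)

/-! ### The relation of a formula -/

/-- The literal number `u` of a formula, with the number of its clause. -/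
def nodes (ψ : List Cl4) : List (ℕ × Lit) :=
  ((List.range ψ.length).zip ψ).flatMap fun x =>
    [(x.1, x.2.1), (x.1, x.2.2.1), (x.1, x.2.2.2.1), (x.1, x.2.2.2.2)]

/-- The conflict relation: different positions of the same clause, or contradictory literals. -/
def conf (ψ : List Cl4) (u v : ℕ) : Bool :=
  (decide (((nodes ψ).getD u (0, (0, false))).1 = ((nodes ψ).getD v (0, (0, false))).1) &&
    !decide (u = v)) ||
  (decide (((nodes ψ).getD u (0, (0, false))).2.1 = ((nodes ψ).getD v (0, (0, false))).2.1) &&
    xor ((nodes ψ).getD u (0, (0, false))).2.2 ((nodes ψ).getD v (0, (0, false))).2.2)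

/-- The rows of a formula. -/
def cnfRows (k h : ℕ) (ψ : List Cl4) (l : ℕ) (r : List Bool) : List Row :=
  rowsOf (4 * ψ.length) l (tc k ψ.length h) (conf ψ) r

/-- The word of the instance of a formula. -/
def cnfWord (k h : ℕ) (ψ : List Cl4) (l : ℕ) (r : List Bool) : List Bool :=
  word (4 * ψ.length * l) (cnfRows k h ψ l r)

/-- The number `Z` of the instance of a formula. -/
noncomputable def cnfZ (k h : ℕ) (ψ : List Cl4) (l : ℕ) (r : List Bool) : ℕ :=
  Z k (gens (4 * ψ.length * l) (cnfRows k h ψ l r))

/-! ### The decision procedure -/

/-- The inverse of `pairWord`. -/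
def unpairW : List Bool → List Bool × List Bool
  | true :: b :: w => (b :: (unpairW w).1, (unpairW w).2)
  | false :: w => ([], w)
  | _ => ([], [])

/-- The decision procedure: run the approximation algorithm on the random instance and compare the
numerator and the denominator of the output. -/
def dec (A : List Bool → List Bool) (p : Polynomial ℕ) (k h : ℕ) (ψ : List Cl4) (l τ : ℕ)
    (r : List Bool) : Bool :=
  let b := nbits (4 * ψ.length) l (tc k ψ.length h)
  let x := cnfWord k h ψ l (r.take b)
  let out := unpairW (A (pairWord x ((r.drop b).take (p.eval x.length))))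
  decide (out.2.length + τ ≤ out.1.length)

/-! ### The search for a satisfying assignment -/

/-- Majority vote of `T` runs on the pieces of length `B` of the word `r`. -/
def maj (T B : ℕ) (D : List Bool → Bool) (r : List Bool) : Bool :=
  decide (T < 2 * ((List.range T).filter fun j => D (chunk B j r)).length)

/-- The clause consisting of a single literal. -/
def unitC (x : Lit) : Cl4 := (x, x, x, x)

/-- A tautological clause. -/
def tautC : Cl4 := ((0, true), (0, false), (0, true), (0, false))

/-- The formula of a question: can the partial assignment `as` of the first `i` variables be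
extended with the value `true` of variable number `i`? It has `ψ.length + N` clauses if
`as.length = i < N`. -/
def query (N : ℕ) (ψ : List Cl4) (as : List Lit) (i : ℕ) : List Cl4 :=
  ψ ++ (as.map unitC ++ (unitC (i, true) :: List.replicate (N - 1 - i) tautC))

/-- The search. -/
def search (D : List Cl4 → List Bool → Bool) (N T B : ℕ) (ψ : List Cl4) (r : List Bool) :
    List Lit :=
  (List.range N).foldl (fun as i =>
    as ++ [(i, maj T B (D (query N ψ as i)) (chunk (T * B) i r))]) []

/-- The assignment found by the search. -/
def asgn (as : List Lit) (v : ℕ) : Bool := (as.getD v (0, false)).2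

/-- The test of an assignment. -/
def satB (ψ : List Cl4) (as : List Lit) : Bool :=
  ψ.all fun C => (asgn as C.1.1 == C.1.2) || (asgn as C.2.1.1 == C.2.1.2) ||
    (asgn as C.2.2.1.1 == C.2.2.1.2) || (asgn as C.2.2.2.1 == C.2.2.2.2)

/-- A bound for the variables of a formula. -/
def nvar (ψ : List Cl4) : ℕ :=
  (ψ.flatMap fun C => List.replicate (C.1.1 + C.2.1.1 + C.2.2.1.1 + C.2.2.2.1) ()).length + 1

/-- The complete one-sided procedure. -/
def rpB (D : List Cl4 → ℕ → ℕ → List Bool → Bool) (lm tm bm : ℕ → ℕ) (ψ : List Cl4)
    (r : List Bool) : Bool :=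
  let N := nvar ψ
  let c := ψ.length + N
  (List.range (lm c + 1)).any fun l => (List.range (tm c + 1)).any fun τ =>
    satB ψ (search (fun φ s => D φ l τ s) N (32 * N) (bm c) ψ r)

end Pool.Agent.Polya
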